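import Pool.Agent.Helper41.LD5.Defs2
import Pool.Agent.Helper44.LD3.LEN
import Pool.Agent.Helper41.LD3.Len2

/-!
# Project LD5, block LEN: the lengths of the windows, the masses
-/

set_option autoImplicit false

namespace Pool.Agent.Helper41.LD5

open Set MeasureTheory Filter Topology
open Pool.Agent.Helper41.LD (av var haar DiscLe Dioph Kk Kk_mono Kk_ge Kk_tendsto)
open Pool.Agent.Helper41.LD3 (Cst Us tm fr lamG ll ll_pos ll_succ ll_anti ll_le mass_bound3)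
open Pool.Agent.Helper41.LD4

/-! ## Polynomials against powers of two -/

theorem ev_poly (a c : ℕ) : ∀ᶠ n : ℕ in atTop, c * n ^ a ≤ 2 ^ n := by
  have h1 : Tendsto (fun n : ℕ => (n : ℝ) ^ a / (2 : ℝ) ^ n) atTop (𝓝 0) :=
    tendsto_pow_const_div_const_pow_of_one_lt a (by norm_num)
  have h2 : ∀ᶠ n : ℕ in atTop, (n : ℝ) ^ a / (2 : ℝ) ^ n < 1 / (c + 1) :=
    h1.eventually (gt_mem_nhds (by positivity))
  filter_upwards [h2] with n hn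
  have hp : (0 : ℝ) < 2 ^ n := by positivity
  have hc : (0 : ℝ) < c + 1 := by positivity
  rw [div_lt_div_iff₀ hp hc, one_mul] at hn
  have h3 : (c : ℝ) * (n : ℝ) ^ a ≤ 2 ^ n := by
    have : (0 : ℝ) ≤ (n : ℝ) ^ a := by positivity
    nlinarith
  exact_mod_cast h3

theorem ev_poly' (a c : ℕ) : ∀ᶠ K : ℕ in atTop, ∀ n, K ≤ n → c * n ^ a ≤ 2 ^ n := by
  obtain ⟨N, hN⟩ := eventually_atTop.1 (ev_poly a c)
  filter_upwards [eventually_ge_atTop N] with K hK n hn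
  exact hN n (hK.trans hn)

theorem ev_len0 {L₀ : ℝ} (hL : 0 < L₀) : ∀ᶠ K₀ : ℕ in atTop, 1 ≤ L₀ * 2 ^ K₀ := by
  obtain ⟨n, hn⟩ := pow_unbounded_of_one_lt (1 / L₀) (show (1 : ℝ) < 2 by norm_num)
  filter_upwards [eventually_ge_atTop n] with K₀ hK
  have h1 : (2 : ℝ) ^ n ≤ 2 ^ K₀ := pow_le_pow_right₀ (by norm_num) hK
  rw [div_lt_iff₀ hL] at hn
  nlinarith

theorem ll_eq (κ K₀ : ℕ) (L₀ : ℝ) (a k : ℕ) :
    ll κ K₀ (L₀ / 2 ^ a) k = L₀ / 2 ^ (a + ∑ j ∈ Finset.range k, Kk K₀ j ^ (2 * κ + 1)) := by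
  unfold ll
  rw [div_div, ← pow_add]

theorem Kk_pow (K₀ σ : ℕ) {j : ℕ} (h : 2 ^ σ ≤ j + 1) : K₀ + σ ≤ Kk K₀ j := by
  unfold Kk
  have h1 : Nat.log 2 (2 ^ σ) ≤ Nat.log 2 (j + 1) := Nat.log_mono_right h
  rw [Nat.log_pow (by norm_num)] at h1
  omega

theorem Kk_lt_pow (K₀ σ : ℕ) {j : ℕ} (h : j + 1 < 2 ^ σ) : Kk K₀ j ≤ K₀ + σ := by
  unfold Kk
  have h1 : Nat.log 2 (j + 1) < σ := Nat.log_lt_of_lt_pow (by omega) h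
  omega

/-! ## LEN1 -/

theorem len_lower {κ K₀ : ℕ} (hK₀ : 1 ≤ K₀) (hbig : ∀ n, K₀ ≤ n → 2 ^ (2 * κ + 4) * n ^ 1 ≤ 2 ^ n) (σ : ℕ) :
    (K₀ + σ) ^ (2 * κ + 2) ≤ (4 * K₀) ^ (2 * κ + 2) + ∑ j ∈ Finset.range (2 ^ σ - 1), Kk K₀ j ^ (2 * κ + 1) := by
  rcases le_or_gt σ (3 * K₀) with h | h
  · refine (Nat.pow_le_pow_left (show K₀ + σ ≤ 4 * K₀ by omega) _).trans (Nat.le_add_right _ _)
  · obtain ⟨ρ, rfl⟩ : ∃ ρ, σ = ρ + 1 := ⟨σ - 1, by omega⟩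
    refine le_trans ?_ (Nat.le_add_left _ _)
    have h1 : (Finset.Ico (2 ^ ρ - 1) (2 ^ (ρ + 1) - 1)).card * (K₀ + ρ) ^ (2 * κ + 1) ≤
        ∑ j ∈ Finset.range (2 ^ (ρ + 1) - 1), Kk K₀ j ^ (2 * κ + 1) := by
      calc (Finset.Ico (2 ^ ρ - 1) (2 ^ (ρ + 1) - 1)).card * (K₀ + ρ) ^ (2 * κ + 1)
          = ∑ _j ∈ Finset.Ico (2 ^ ρ - 1) (2 ^ (ρ + 1) - 1), (K₀ + ρ) ^ (2 * κ + 1) := by
            rw [Finset.sum_const, smul_eq_mul]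
        _ ≤ ∑ j ∈ Finset.Ico (2 ^ ρ - 1) (2 ^ (ρ + 1) - 1), Kk K₀ j ^ (2 * κ + 1) := by
            refine Finset.sum_le_sum fun j hj => Nat.pow_le_pow_left (Kk_pow K₀ ρ ?_) _
            have := (Finset.mem_Ico.1 hj).1
            omega
        _ ≤ _ := by
            refine Finset.sum_le_sum_of_subset fun j hj => ?_
            rw [Finset.mem_range]
            exact (Finset.mem_Ico.1 hj).2
    have h2 : (Finset.Ico (2 ^ ρ - 1) (2 ^ (ρ + 1) - 1)).card = 2 ^ ρ := by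
      rw [Nat.card_Ico]
      have : 1 ≤ 2 ^ ρ := Nat.one_le_pow _ _ (by norm_num)
      have h3 : 2 ^ (ρ + 1) = 2 * 2 ^ ρ := by ring
      omega
    rw [h2] at h1
    refine le_trans ?_ h1
    have h4 : 2 ^ (2 * κ + 4) * ρ ^ 1 ≤ 2 ^ ρ := hbig ρ (by omega)
    have h5 : K₀ + (ρ + 1) ≤ 2 * (K₀ + ρ) := by omega
    have h6 : K₀ + (ρ + 1) ≤ 2 * ρ := by omega
    calc (K₀ + (ρ + 1)) ^ (2 * κ + 2) = (K₀ + (ρ + 1)) * (K₀ + (ρ + 1)) ^ (2 * κ + 1) := by ring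
      _ ≤ (2 * ρ) * (2 * (K₀ + ρ)) ^ (2 * κ + 1) := Nat.mul_le_mul h6 (Nat.pow_le_pow_left h5 _)
      _ = (2 ^ (2 * κ + 2) * ρ) * (K₀ + ρ) ^ (2 * κ + 1) := by rw [mul_pow]; ring
      _ ≤ 2 ^ ρ * (K₀ + ρ) ^ (2 * κ + 1) := by
          refine Nat.mul_le_mul_right _ (le_trans ?_ h4)
          rw [pow_one]
          exact Nat.mul_le_mul_right _ (Nat.pow_le_pow_right (by norm_num) (by omega))

theorem len_upper {κ K₀ : ℕ} (hbig : ∀ n, K₀ ≤ n → 4 * n ^ (2 * κ + 1) ≤ 2 ^ n)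
    (hbig2 : 4 ^ (2 * κ + 4) * K₀ ^ (2 * κ + 2) ≤ 2 ^ K₀) (σ : ℕ) :
    K₀ + ((4 * K₀) ^ (2 * κ + 2) + ∑ j ∈ Finset.range (2 ^ σ - 1), Kk K₀ j ^ (2 * κ + 1)) ≤ 2 ^ (2 * (K₀ + σ)) := by
  have h1 : ∑ j ∈ Finset.range (2 ^ σ - 1), Kk K₀ j ^ (2 * κ + 1) ≤ 2 ^ σ * (K₀ + σ) ^ (2 * κ + 1) := by
    calc ∑ j ∈ Finset.range (2 ^ σ - 1), Kk K₀ j ^ (2 * κ + 1)
        ≤ ∑ _j ∈ Finset.range (2 ^ σ - 1), (K₀ + σ) ^ (2 * κ + 1) := by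
          refine Finset.sum_le_sum fun j hj => Nat.pow_le_pow_left (Kk_lt_pow K₀ σ ?_) _
          have := Finset.mem_range.1 hj
          omega
      _ = (2 ^ σ - 1) * (K₀ + σ) ^ (2 * κ + 1) := by
          rw [Finset.sum_const, smul_eq_mul, Finset.card_range]
      _ ≤ _ := Nat.mul_le_mul_right _ (Nat.sub_le _ _)
  have h2 := hbig (K₀ + σ) (by omega)
  have h3 : 4 * (2 ^ σ * (K₀ + σ) ^ (2 * κ + 1)) ≤ 2 ^ (2 * (K₀ + σ)) := by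
    calc 4 * (2 ^ σ * (K₀ + σ) ^ (2 * κ + 1)) = 2 ^ σ * (4 * (K₀ + σ) ^ (2 * κ + 1)) := by ring
      _ ≤ 2 ^ σ * 2 ^ (K₀ + σ) := Nat.mul_le_mul_left _ h2
      _ = 2 ^ (σ + (K₀ + σ)) := by rw [pow_add 2 σ]
      _ ≤ _ := Nat.pow_le_pow_right (by norm_num) (by omega)
  have h4 : 4 * (4 * K₀) ^ (2 * κ + 2) ≤ 2 ^ (2 * (K₀ + σ)) := by
    calc 4 * (4 * K₀) ^ (2 * κ + 2) = 4 ^ (2 * κ + 3) * K₀ ^ (2 * κ + 2) := by rw [mul_pow]; ring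
      _ ≤ 4 ^ (2 * κ + 4) * K₀ ^ (2 * κ + 2) := Nat.mul_le_mul_right _ (Nat.pow_le_pow_right (by norm_num) (by omega))
      _ ≤ 2 ^ K₀ := hbig2
      _ ≤ _ := Nat.pow_le_pow_right (by norm_num) (by omega)
  have h5 : 2 * K₀ ≤ 2 ^ (2 * (K₀ + σ)) := by
    have h6 : 2 * K₀ < 2 ^ (2 * K₀) := Nat.lt_two_pow_self
    have h7 : 2 ^ (2 * K₀) ≤ 2 ^ (2 * (K₀ + σ)) := Nat.pow_le_pow_right (by norm_num) (by omega)
    omega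
  omega

theorem ev_len {κ : ℕ} (hκ : 1 ≤ κ) {L₀ : ℝ} (hL : 0 < L₀) (hL1 : L₀ ≤ 1) : ∀ᶠ K₀ : ℕ in atTop, ∀ σ : ℕ,
    ll κ K₀ (L₀ / 2 ^ ((4 * K₀) ^ (2 * κ + 2))) (2 ^ σ - 1) * 2 ^ ((K₀ + σ) ^ (2 * κ + 2)) ≤ 1 ∧
    1 ≤ ll κ K₀ (L₀ / 2 ^ ((4 * K₀) ^ (2 * κ + 2))) (2 ^ σ - 1) * 2 ^ (2 ^ (2 * (K₀ + σ))) := by
  filter_upwards [ev_poly' 1 (2 ^ (2 * κ + 4)), ev_poly' (2 * κ + 1) 4, ev_poly' (2 * κ + 2) (4 ^ (2 * κ + 4)), ev_len0 hL,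
    eventually_ge_atTop 1] with K₀ h1 h2 h3 h4 h5 σ
  have l1 := len_lower h5 h1 σ
  have l2 := len_upper h2 (h3 K₀ le_rfl) σ
  rw [ll_eq]
  set E := (4 * K₀) ^ (2 * κ + 2) + ∑ j ∈ Finset.range (2 ^ σ - 1), Kk K₀ j ^ (2 * κ + 1) with hE
  have hp : (0 : ℝ) < 2 ^ E := by positivity
  constructor
  · rw [div_mul_eq_mul_div, div_le_one hp]
    have h6 : (2 : ℝ) ^ ((K₀ + σ) ^ (2 * κ + 2)) ≤ 2 ^ E := pow_le_pow_right₀ (by norm_num) l1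
    exact (mul_le_of_le_one_left (by positivity) hL1).trans h6
  · rw [div_mul_eq_mul_div, one_le_div hp]
    have h6 : (2 : ℝ) ^ (K₀ + E) ≤ 2 ^ (2 ^ (2 * (K₀ + σ))) := pow_le_pow_right₀ (by norm_num) l2
    calc (2 : ℝ) ^ E ≤ (L₀ * 2 ^ K₀) * 2 ^ E := le_mul_of_one_le_left hp.le h4
      _ = L₀ * 2 ^ (K₀ + E) := by rw [pow_add]; ring
      _ ≤ _ := mul_le_mul_of_nonneg_left h6 hL.le

/-! ## LEN3 -/

theorem prod_pro5 (K₀ k : ℕ) : ∏ j ∈ Finset.range (k + 1), (pro5 K₀ j)⁻¹ = ∏ j ∈ Finset.range k, ((1 / 2 : ℝ) ^ (3 * Kk K₀ j))⁻¹ := by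
  rw [Finset.prod_range_succ']
  simp [pro5]

theorem mass_bound5 {κ : ℕ} (hκ : 1 ≤ κ) {L₀ : ℝ} (hL : 0 < L₀) (K₀ : ℕ) {s : ℝ} (hs : 0 < s) (hs1 : s < 1) :
    ∃ C : ℝ, ∀ k, (∏ j ∈ Finset.range (k + 1), (pro5 K₀ j)⁻¹) * len5 κ K₀ L₀ k ^ (1 - s) ≤ C := by
  have hl : (0 : ℝ) < L₀ / 2 ^ ((4 * K₀) ^ (2 * κ + 2)) := by positivity
  obtain ⟨C, hC⟩ := mass_bound3 hκ hl K₀ hs hs1
  refine ⟨max C (L₀ ^ (1 - s)), fun k => ?_⟩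
  rcases k with _ | k
  · refine le_trans ?_ (le_max_right _ _)
    simp [pro5, len5]
  · refine le_trans ?_ (le_max_left _ _)
    rw [prod_pro5]
    have h1 : len5 κ K₀ L₀ (k + 1) = ll κ K₀ (L₀ / 2 ^ ((4 * K₀) ^ (2 * κ + 2))) k := by
      simp [len5]
    rw [h1]
    exact hC k

/-! ## LEN2 -/

theorem prod_half (K₀ k : ℕ) : ∏ j ∈ Finset.range k, ((1 / 2 : ℝ) ^ (3 * Kk K₀ j))⁻¹ = 2 ^ (3 * ∑ j ∈ Finset.range k, Kk K₀ j) := by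
  rw [Finset.mul_sum, ← Finset.prod_pow_eq_pow_sum]
  refine Finset.prod_congr rfl fun j _ => ?_
  rw [← inv_pow]
  norm_num

theorem len5_small {κ K₀ : ℕ} (hK₀ : 1 ≤ K₀) {L₀ : ℝ} (hL : 0 < L₀) (hL1 : L₀ ≤ 1) (n : ℕ) : ∃ k, len5 κ K₀ L₀ k ≤ (1 / 2) ^ n := by
  refine ⟨n + 1, ?_⟩
  have h1 : len5 κ K₀ L₀ (n + 1) = ll κ K₀ (L₀ / 2 ^ ((4 * K₀) ^ (2 * κ + 2))) n := by
    simp [len5]
  rw [h1]
  have hl : (0 : ℝ) < L₀ / 2 ^ ((4 * K₀) ^ (2 * κ + 2)) := by positivity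
  refine (ll_le hl hK₀ n).trans (mul_le_of_le_one_left (by positivity) ?_)
  rw [div_le_one (by positivity)]
  exact hL1.trans (one_le_pow₀ (by norm_num))

theorem exp_sum {κ K₀ : ℕ} (hκ : 1 ≤ κ) (hK₀ : 30 ≤ K₀) {M m : ℕ} (hM : K₀ ≤ M) (hbig : 900 * M ≤ 2 ^ M)
    (hS : ∑ j ∈ Finset.range m, Kk K₀ j ^ (2 * κ + 1) < 900 * M) : ∑ j ∈ Finset.range (m + 1), Kk K₀ j ≤ 3 * M := by
  have h1 : 900 * ∑ j ∈ Finset.range m, Kk K₀ j ≤ ∑ j ∈ Finset.range m, Kk K₀ j ^ (2 * κ + 1) := by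
    rw [Finset.mul_sum]
    refine Finset.sum_le_sum fun j _ => ?_
    have h2 : 30 ≤ Kk K₀ j := hK₀.trans (Kk_ge K₀ j)
    calc 900 * Kk K₀ j = 30 ^ 2 * Kk K₀ j := by norm_num
      _ ≤ Kk K₀ j ^ 2 * Kk K₀ j := Nat.mul_le_mul_right _ (Nat.pow_le_pow_left h2 2)
      _ = Kk K₀ j ^ (2 + 1) := by ring
      _ ≤ Kk K₀ j ^ (2 * κ + 1) := Nat.pow_le_pow_right (by omega) (by omega)
  have h3 : m ≤ ∑ j ∈ Finset.range m, Kk K₀ j ^ (2 * κ + 1) := by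
    calc m = ∑ _j ∈ Finset.range m, 1 := by simp
      _ ≤ _ := Finset.sum_le_sum fun j _ => Nat.one_le_pow _ _ (by have := Kk_ge K₀ j; omega)
  rw [Finset.sum_range_succ]
  rcases Nat.eq_zero_or_pos m with h0 | h0
  · subst h0
    have h4 : Kk K₀ 0 = K₀ := by simp [Kk]
    rw [h4]
    simp only [Finset.range_zero, Finset.sum_empty]
    omega
  · have h5 : Kk K₀ m ≤ K₀ + M := by
      unfold Kk
      have h6 : Nat.log 2 (m + 1) ≤ M := by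
        have h7 : Nat.log 2 (m + 1) ≤ Nat.log 2 (2 ^ M) := Nat.log_mono_right (by omega)
        rwa [Nat.log_pow (by norm_num)] at h7
      omega
    omega

theorem mass_one {κ K₀ : ℕ} (hκ : 1 ≤ κ) (hK₀ : 30 ≤ K₀) {L₀ : ℝ} (hL : 0 < L₀) (hL1 : L₀ ≤ 1) (hL2 : 1 ≤ L₀ * 2 ^ K₀)
    (hbig : ∀ n, K₀ ≤ n → 900 * n ^ 1 ≤ 2 ^ n) (σ : ℕ) : ∃ k, ((2 ^ (60 * (K₀ + σ)) : ℕ) : ℝ) *
      ((2 * (2 * (1 / 2 : ℝ) ^ (998 * (K₀ + σ))) + 2 * len5 κ K₀ L₀ k) / len5 κ K₀ L₀ 0 *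
        ∏ j ∈ Finset.range k, (pro5 K₀ j)⁻¹) ≤ (1 / 2) ^ (σ + 2) := by
  classical
  obtain ⟨M, hM⟩ : ∃ M, M = K₀ + σ := ⟨_, rfl⟩
  rw [← hM]
  have hex := len5_small (κ := κ) (show 1 ≤ K₀ by omega) hL hL1 (900 * M)
  obtain ⟨k, hk1, hk2⟩ : ∃ k, len5 κ K₀ L₀ k ≤ (1 / 2) ^ (900 * M) ∧ ∏ j ∈ Finset.range k, (pro5 K₀ j)⁻¹ ≤ 2 ^ (9 * M) := by
    refine ⟨Nat.find hex, Nat.find_spec hex, ?_⟩
    have hmin : ∀ m < Nat.find hex, (1 / 2) ^ (900 * M) < len5 κ K₀ L₀ m := fun m hm => not_le.1 (Nat.find_min hex hm)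
    generalize Nat.find hex = k at hmin
    have h1 : (1 : ℝ) ≤ 2 ^ (9 * M) := one_le_pow₀ (by norm_num)
    rcases k with _ | _ | m
    · simpa using h1
    · simpa [pro5] using h1
    · rw [prod_pro5, prod_half]
      refine pow_le_pow_right₀ (by norm_num) ?_
      have h2 := hmin (m + 1) (by omega)
      have h3 : len5 κ K₀ L₀ (m + 1) = ll κ K₀ (L₀ / 2 ^ ((4 * K₀) ^ (2 * κ + 2))) m := by
        simp [len5]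
      rw [h3, ll_eq] at h2
      set E := (4 * K₀) ^ (2 * κ + 2) + ∑ j ∈ Finset.range m, Kk K₀ j ^ (2 * κ + 1) with hE
      have hp : (0 : ℝ) < 2 ^ E := by positivity
      have h4 : (1 / 2 : ℝ) ^ (900 * M) < (1 / 2) ^ E := by
        refine h2.trans_le ?_
        rw [one_div, inv_pow, ← one_div]
        exact div_le_div_of_nonneg_right hL1 hp.le
      have h5 : E < 900 * M := (pow_lt_pow_iff_right_of_lt_one₀ (by norm_num) (by norm_num)).1 h4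
      have h6 : ∑ j ∈ Finset.range (m + 1), Kk K₀ j ≤ 3 * M := by
        refine exp_sum hκ hK₀ (by omega) ?_ (by omega)
        have := hbig M (by omega)
        rwa [pow_one] at this
      omega
  refine ⟨k, ?_⟩
  have h0 : len5 κ K₀ L₀ 0 = L₀ := by simp [len5]
  rw [h0]
  have hx : (1 / 2 : ℝ) ^ (998 * M) ≤ (1 / 2) ^ (900 * M) := pow_le_pow_of_le_one (by norm_num) (by norm_num) (by omega)
  have hP0 : 0 ≤ ∏ j ∈ Finset.range k, (pro5 K₀ j)⁻¹ := Finset.prod_nonneg fun j _ => by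
    unfold pro5
    split_ifs <;> positivity
  have hK2 : (2 : ℝ) ^ K₀ ≤ 2 ^ M := pow_le_pow_right₀ (by norm_num) (by omega)
  have hinv : 1 / L₀ ≤ 2 ^ M := by
    rw [div_le_iff₀ hL]
    nlinarith
  have hA : (2 * (2 * (1 / 2 : ℝ) ^ (998 * M)) + 2 * len5 κ K₀ L₀ k) ≤ 8 * (1 / 2) ^ (900 * M) := by
    have : (0 : ℝ) ≤ (1 / 2) ^ (900 * M) := by positivity
    linarith
  have hA' : (2 * (2 * (1 / 2 : ℝ) ^ (998 * M)) + 2 * len5 κ K₀ L₀ k) / L₀ ≤ 8 * (1 / 2) ^ (900 * M) * 2 ^ M := by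
    rw [div_eq_mul_one_div]
    exact mul_le_mul hA hinv (by positivity) (by positivity)
  have hB : (2 * (2 * (1 / 2 : ℝ) ^ (998 * M)) + 2 * len5 κ K₀ L₀ k) / L₀ * ∏ j ∈ Finset.range k, (pro5 K₀ j)⁻¹ ≤
      8 * (1 / 2) ^ (900 * M) * 2 ^ M * 2 ^ (9 * M) := mul_le_mul hA' hk2 hP0 (by positivity)
  have hcast : ((2 ^ (60 * M) : ℕ) : ℝ) = (2 : ℝ) ^ (60 * M) := by push_cast; rfl
  rw [hcast]
  refine (mul_le_mul_of_nonneg_left hB (by positivity)).trans ?_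
  have e1 : (2 : ℝ) ^ (60 * M) * (8 * (1 / 2) ^ (900 * M) * 2 ^ M * 2 ^ (9 * M)) = 2 ^ (60 * M + M + 9 * M + 3) * (1 / 2) ^ (900 * M) := by
    rw [pow_add, pow_add, pow_add]
    ring
  rw [e1]
  have e2 : (900 * M) = (60 * M + M + 9 * M + 3) + (830 * M - 3) := by omega
  rw [e2, pow_add (1 / 2 : ℝ), ← mul_assoc, ← mul_pow]
  rw [show (2 : ℝ) * (1 / 2) = 1 by norm_num, one_pow, one_mul]
  exact pow_le_pow_of_le_one (by norm_num) (by norm_num) (by omega)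

theorem ev_mass5 {κ : ℕ} (hκ : 1 ≤ κ) {L₀ : ℝ} (hL : 0 < L₀) (hL1 : L₀ ≤ 1) : ∀ᶠ K₀ : ℕ in atTop, ∃ kk : ℕ → ℕ, ∀ n : ℕ,
    ∑ σ ∈ Finset.range n, ((2 ^ (60 * (K₀ + σ)) : ℕ) : ℝ) * ((2 * (2 * (1 / 2 : ℝ) ^ (998 * (K₀ + σ))) + 2 * len5 κ K₀ L₀ (kk σ)) / len5 κ K₀ L₀ 0 *
      ∏ j ∈ Finset.range (kk σ), (pro5 K₀ j)⁻¹) ≤ 1 / 2 := by
  filter_upwards [eventually_ge_atTop 30, ev_len0 hL, ev_poly' 1 900] with K₀ h1 h2 h3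
  choose kk hkk using mass_one hκ h1 hL hL1 h2 h3
  refine ⟨kk, fun n => ?_⟩
  refine (Finset.sum_le_sum fun σ _ => hkk σ).trans ?_
  have h4 : ∀ n : ℕ, ∑ σ ∈ Finset.range n, (1 / 2 : ℝ) ^ (σ + 2) ≤ 1 / 2 - (1 / 2) ^ (n + 1) := by
    intro n
    induction n with
    | zero => norm_num
    | succ n ih =>
      rw [Finset.sum_range_succ]
      have : (1 / 2 : ℝ) ^ (n + 1) = 2 * (1 / 2) ^ (n + 2) := by ring
      have h5 : (1 / 2 : ℝ) ^ (n + 1 + 1) = (1 / 2) ^ (n + 2) := by ring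
      linarith
  have h5 : (0 : ℝ) < (1 / 2) ^ (n + 1) := by positivity
  linarith [h4 n]

end Pool.Agent.Helper41.LD5
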